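import Pool.Agent.P.MP_ef1b96_co.K.Main

namespace Pool.Agent.Results.MP_ef1b96_co.AllK

/-- For every `k ≥ 2`, all large `n` and all `r` with `n / (k + 1) < r < n` there are `k` mutually
orthogonal `r × n` latin rectangles that cannot be extended by one new row each. -/
theorem result (k : ℕ) (hk : 2 ≤ k) :
    ∃ N : ℕ, ∀ n : ℕ, N ≤ n → ∀ r : ℕ, n < (k + 1) * r → r < n →
      ∃ A : Fin k → Fin r → Fin n → Fin n,
        (∀ s i, Function.Injective (A s i)) ∧
        (∀ s j, Function.Injective (fun i => A s i j)) ∧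
        (∀ s s', s ≠ s' →
          Function.Injective (fun p : Fin r × Fin n => (A s p.1 p.2, A s' p.1 p.2))) ∧
        ¬ ∃ a : Fin k → Fin n → Fin n,
            (∀ s, Function.Injective (a s)) ∧ (∀ s i j, a s j ≠ A s i j) ∧
            (∀ s s', s ≠ s' → ∀ i j j', (a s j, a s' j) ≠ (A s i j', A s' i j')) := by
  obtain ⟨N, hN⟩ := Pool.Agent.P.MP_ef1b96_co.K.has_all hk
  exact ⟨N, fun n hn r h1 h2 => Pool.Agent.P.MP_ef1b96_co.K.arrays_of_has (hN n hn r h1 h2)⟩

end Pool.Agent.Results.MP_ef1b96_co.AllK
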